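import Pool.Agent.Y896.TF.Dyn

/-!
# The topological full group of the Morse subshift contains a group of intermediate growth
-/

set_option autoImplicit false

namespace Pool.Agent.Results.MP_0e9457_al.MorseSubshift

open Pool.Agent.Y896.TF

/-- **The topological full group of the Morse subshift has a finitely generated subgroup of
intermediate growth.** -/
theorem result : HasIntermediateSubgroup (fullGroup T) := main

end Pool.Agent.Results.MP_0e9457_al.MorseSubshift
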